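import Mathlib
import Pool.Agent.Helper82.IW.Goals

/-! Packet MAIN of project IW (MP_f7b570_an): choice of the parameters. -/

open Complex MeasureTheory Set Filter Topology
open scoped ContDiff ComplexConjugate

namespace Pool.Agent.Helper3.IW

open Pool.Agent.Helper28.BA (dz db psi)
open Pool.Agent.Helper82.IW

noncomputable section

lemma per_zsmul {E : Type*} {f : ℂ → E} (hf : Per f) (z : ℂ) (m n : ℤ) :
    f (z + m • (1 : ℂ) + n • I) = f z := by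
  have h1 : Function.Periodic f (1 : ℂ) := fun z => (hf z).1
  have h2 : Function.Periodic f I := fun z => (hf z).2
  rw [(h2.zsmul n) _, (h1.zsmul m) _]

lemma exists_rep (z : ℂ) : ∃ w ∈ Q, ∃ m n : ℤ, z = w + m • (1 : ℂ) + n • I := by
  refine ⟨⟨Int.fract z.re, Int.fract z.im⟩, ?_, ⌊z.re⌋, ⌊z.im⌋, ?_⟩
  · rw [Q, Complex.mem_reProdIm]
    exact ⟨⟨Int.fract_nonneg _, (Int.fract_lt_one _).le⟩, ⟨Int.fract_nonneg _, (Int.fract_lt_one _).le⟩⟩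
  · apply Complex.ext <;> simp

lemma isCompact_Q : IsCompact Q := isCompact_Icc.reProdIm isCompact_Icc

lemma bdd_of_cont {f : ℂ → ℂ} (hc : Continuous f) (hf : Per f) : ∃ A : ℝ, ∀ z, ‖f z‖ ≤ A := by
  obtain ⟨A, hA⟩ := isCompact_Q.exists_bound_of_continuousOn hc.continuousOn
  refine ⟨A, fun z => ?_⟩
  obtain ⟨w, hw, m, n, rfl⟩ := exists_rep z
  rw [per_zsmul hf]
  exact hA w hw

theorem MAIN (hONE : S_ONE) (hPC : S_PC) (hSPB : S_SPB) : Pool.Agent.Helper82.IW.S_MAIN := by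
  intro U hU
  obtain ⟨m, hm, hone⟩ := hONE
  obtain ⟨-, -, hhl, hzb, -⟩ := hSPB.1 U hU
  obtain ⟨A1, hA1⟩ := bdd_of_cont hU.smooth.continuous hU.per
  obtain ⟨A2, hA2⟩ := bdd_of_cont hhl.smooth.continuous hhl.per
  obtain ⟨A3, hA3⟩ := bdd_of_cont hzb.smooth.continuous hzb.per
  obtain ⟨A, hAdef⟩ : ∃ A : ℝ, A = max 1 (max A1 (max A2 A3)) := ⟨_, rfl⟩
  have hA : 1 ≤ A := hAdef ▸ le_max_left _ _
  have hAA : ∀ z, ‖U z‖ ≤ A ∧ ‖hl U z‖ ≤ A ∧ ‖zb U z‖ ≤ A := by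
    intro z
    rw [hAdef]
    refine ⟨(hA1 z).trans (le_max_of_le_right (le_max_left _ _)),
      (hA2 z).trans (le_max_of_le_right (le_max_of_le_right (le_max_left _ _))),
      (hA3 z).trans (le_max_of_le_right (le_max_of_le_right (le_max_right _ _)))⟩
  -- it is enough that the integral is `≥ - 6 x`
  suffices h : ∀ x : ℝ, 0 < x → -(6 * x) ≤ ∫ z in Q, psi ‖hl U z‖ ‖zb U z‖ by
    by_contra hneg
    push Not at hneg
    have := h (-(∫ z in Q, psi ‖hl U z‖ ‖zb U z‖) / 12) (by linarith)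
    linarith
  intro x hx
  obtain ⟨e, hedef⟩ : ∃ e : ℝ, e = x / (4 * (A + 1)) := ⟨_, rfl⟩
  have he : 0 < e := by rw [hedef]; positivity
  have he' : 4 * e * (A + 1) = x := by
    rw [hedef]; field_simp
  obtain ⟨η, K, p, c, hη, hK, hp, hc, hpc, hcη, hder, hc1, hp1⟩ := hPC (zb U) hzb e he
  obtain ⟨ν, hνdef⟩ : ∃ ν : ℝ, ν = min (1 / 4) (x * η / (1 + A)) := ⟨_, rfl⟩
  have hA0 : 0 < 1 + A := by linarith
  have hν : 0 < ν := by rw [hνdef]; exact lt_min (by norm_num) (by positivity)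
  have hν4 : ν ≤ 1 / 4 := by rw [hνdef]; exact min_le_left _ _
  have hν' : ν / η * (1 + A) ≤ x := by
    have : ν ≤ x * η / (1 + A) := by rw [hνdef]; exact min_le_right _ _
    rw [le_div_iff₀ hA0] at this
    rw [div_mul_eq_mul_div, div_le_iff₀ hη]
    exact this
  obtain ⟨κ, hκdef⟩ : ∃ κ : ℝ, κ = min 1 (x / (2 * A)) := ⟨_, rfl⟩
  have hA0' : 0 < A := by linarith
  have hκ : 0 < κ := by rw [hκdef]; exact lt_min (by norm_num) (by positivity)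
  have hκ1 : κ ≤ 1 := by rw [hκdef]; exact min_le_left _ _
  have hκ' : 2 * κ * A ≤ x := by
    have : κ ≤ x / (2 * A) := by rw [hκdef]; exact min_le_right _ _
    rw [le_div_iff₀ (by positivity)] at this
    linarith
  -- choice of `ρ`
  have hρex : ∃ ρ : ℝ, 0 < ρ ∧ ρ ≤ 1 ∧ 5 * K * ρ ^ ν * (1 + 10 * (1 + 1 / κ ^ 2 + A ^ 2)) ≤ x := by
    have h1 : Tendsto (fun ρ : ℝ => 5 * K * ρ ^ ν * (1 + 10 * (1 + 1 / κ ^ 2 + A ^ 2))) (𝓝[>] 0) (𝓝 0) := by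
      have h2 : Tendsto (fun ρ : ℝ => ρ ^ ν) (𝓝 0) (𝓝 ((0 : ℝ) ^ ν)) :=
        (Real.continuousAt_rpow_const 0 ν (Or.inr hν.le)).tendsto
      rw [Real.zero_rpow hν.ne'] at h2
      have h3 := ((h2.const_mul (5 * K)).mul_const (1 + 10 * (1 + 1 / κ ^ 2 + A ^ 2)))
      simp only [mul_zero, zero_mul] at h3
      exact h3.mono_left nhdsWithin_le_nhds
    have h4 : ∀ᶠ ρ in 𝓝[>] (0 : ℝ), 5 * K * ρ ^ ν * (1 + 10 * (1 + 1 / κ ^ 2 + A ^ 2)) ≤ x :=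
      h1.eventually (ge_mem_nhds hx)
    have h5 : ∀ᶠ ρ in 𝓝[>] (0 : ℝ), ρ ∈ Ioo (0 : ℝ) 1 := Ioo_mem_nhdsGT one_pos
    obtain ⟨ρ, h6, h7⟩ := (h4.and h5).exists
    exact ⟨ρ, h7.1, h7.2.le, h6⟩
  obtain ⟨ρ, hρ, hρ1, hρ'⟩ := hρex
  -- choice of `ε`
  have hεex : ∃ ε : ℝ, 0 < ε ∧ ε ≤ 1 ∧ 2 * (ε + (Real.sqrt ε / ρ) ^ (2 * ν)) ≤ x := by
    have h1 : Tendsto (fun ε : ℝ => 2 * (ε + (Real.sqrt ε / ρ) ^ (2 * ν))) (𝓝[>] 0) (𝓝 0) := by
      have h2 : ContinuousAt (fun ε : ℝ => 2 * (ε + (Real.sqrt ε / ρ) ^ (2 * ν))) 0 := by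
        have h3 : ContinuousAt (fun ε : ℝ => Real.sqrt ε / ρ) 0 :=
          (Real.continuous_sqrt.div_const ρ).continuousAt
        have h4 : ContinuousAt (fun ε : ℝ => (Real.sqrt ε / ρ) ^ (2 * ν)) 0 :=
          h3.rpow_const (Or.inr (by positivity))
        exact (continuousAt_id.add h4).const_mul 2
      have h5 := h2.tendsto
      simp only [Real.sqrt_zero, zero_div] at h5
      rw [Real.zero_rpow (by positivity)] at h5
      simp only [add_zero, mul_zero] at h5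
      exact h5.mono_left nhdsWithin_le_nhds
    have h4 : ∀ᶠ ε in 𝓝[>] (0 : ℝ), 2 * (ε + (Real.sqrt ε / ρ) ^ (2 * ν)) ≤ x :=
      h1.eventually (ge_mem_nhds hx)
    have h5 : ∀ᶠ ε in 𝓝[>] (0 : ℝ), ε ∈ Ioo (0 : ℝ) 1 := Ioo_mem_nhdsGT one_pos
    obtain ⟨ε, h6, h7⟩ := (h4.and h5).exists
    exact ⟨ε, h7.1, h7.2.le, h6⟩
  obtain ⟨ε, hε, hε1, hε'⟩ := hεex
  -- choice of `n`
  have hnex : ∃ n : ℕ, |m n| * (6 / ε * (3 + 2 / κ ^ 2 + 4 * A ^ 2) + 4 * K) ≤ x := by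
    have h1 := (hm.abs).mul_const (6 / ε * (3 + 2 / κ ^ 2 + 4 * A ^ 2) + 4 * K)
    rw [abs_zero, zero_mul] at h1
    exact (h1.eventually (ge_mem_nhds hx)).exists
  obtain ⟨n, hn⟩ := hnex
  have hfin := hone U p c A η K e hU hp hc hA hη hK he.le hAA hpc hcη hder hc1 hp1 ν κ ρ ε n
    hν hν4 hκ hκ1 hρ hρ1 hε hε1
  linarith

end

end Pool.Agent.Helper3.IW
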